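import Pool.Agent.Y875.UE.Stm

/-!
# `S_TRANS`: the coefficients of `C` through the norm
-/

set_option autoImplicit false

open Finset

namespace Pool.Agent.Y529.UE

open Pool.Agent.Y875.UE

section idx

variable {E : Type} [Field E] {k : ℕ} {z : E} {l : E → ZMod (2 ^ k)}

theorem idx_one (h : IsIdx k z l) : l 1 = 0 := by
  have h1 := h.mul 1 1 one_ne_zero one_ne_zero
  rw [mul_one] at h1
  exact left_eq_add.1 h1

theorem idx_pow (h : IsIdx k z l) {x : E} (hx : x ≠ 0) (n : ℕ) : l (x ^ n) = n * l x := by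
  induction n with
  | zero => simp [idx_one h]
  | succ n ih =>
    rw [pow_succ, h.mul _ _ (pow_ne_zero _ hx) hx, ih]
    push_cast
    ring

theorem idx_prod (h : IsIdx k z l) {ι : Type} (s : Finset ι) (f : ι → E)
    (hf : ∀ i ∈ s, f i ≠ 0) : l (∏ i ∈ s, f i) = ∑ i ∈ s, l (f i) := by
  classical
  induction s using Finset.induction_on with
  | empty => simp [idx_one h]
  | insert i s hi ih =>
    rw [prod_insert hi, sum_insert hi, h.mul _ _ (hf i (mem_insert_self _ _))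
      (prod_ne_zero_iff.2 fun j hj => hf j (mem_insert_of_mem hj)),
      ih fun j hj => hf j (mem_insert_of_mem hj)]

end idx

theorem exists_prim (F : Type) [Field F] [Fintype F] (n m : ℕ)
    (h : Fintype.card F - 1 = n * m) : ∃ ζ : F, IsPrimitiveRoot ζ n := by
  classical
  obtain ⟨g, hg⟩ := IsCyclic.exists_ofOrder_eq_natCard (α := Fˣ)
  have h1 : Nat.card Fˣ = n * m := by
    rw [Nat.card_eq_fintype_card, Fintype.card_units, h]
  have h2 : 0 < n * m := by
    rw [← h1]; exact Nat.card_pos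
  have h3 : IsPrimitiveRoot g (n * m) := by
    rw [← h1, ← hg]; exact IsPrimitiveRoot.orderOf g
  have h4 : IsPrimitiveRoot (g ^ m) n := h3.pow h2 (mul_comm n m)
  exact ⟨((g ^ m : Fˣ) : F), IsPrimitiveRoot.coe_units_iff.2 h4⟩

theorem coeff_CC {R E : Type} [CommRing R] [Field E] [Fintype E] {N : ℕ} (l : E → ZMod N)
    (lam : E → R) (A : ZMod N) [DecidablePred fun s : E => s ≠ 0 ∧ l s = A] (hA : Odd A.val)
    (h1 : l 1 = 0) :
    (CC l lam).coeff A = ∑ s ∈ univ.filter (fun s : E => s ≠ 0 ∧ l s = A),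
      lam s * ((l (1 - s)).val : R) := by
  classical
  unfold CC
  rw [AddMonoidAlgebra.coeff_sum, Finsupp.finsetSum_apply, sum_filter]
  refine sum_congr rfl fun s _ => ?_
  by_cases hs : s ≠ 0 ∧ l s = A
  · have hs1 : s ≠ 1 := by
      rintro rfl
      rw [h1] at hs
      rw [← hs.2, ZMod.val_zero] at hA
      exact (Nat.not_odd_zero hA)
    rw [if_pos hs, if_pos ⟨hs.1, hs1, by rw [hs.2]; exact hA⟩, AddMonoidAlgebra.coeff_single,
      Finsupp.single_apply, if_pos hs.2]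
  · rw [if_neg hs]
    by_cases h2 : s ≠ 0 ∧ s ≠ 1 ∧ Odd (l s).val
    · rw [if_pos h2, AddMonoidAlgebra.coeff_single, Finsupp.single_apply,
        if_neg fun h3 => hs ⟨h2.1, h3⟩]
    · rw [if_neg h2]
      rfl


/-- the data -/
theorem div_facts {q e u k f M : ℕ} (h : Lev q e u k f M) : ∃ m : ℕ, M = m * u ∧ M / u = m ∧
    Odd m ∧ 0 < u ∧ q ^ f - 1 = (q - 1) * (2 ^ (k - e) * m) ∧ 0 < q - 1 := by
  have hu0 : 0 < u := h.hu.pos
  have hq1 : q - 1 = 2 ^ e * u := by rw [h.sub]; simp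
  have hf1 : q ^ f - 1 = 2 ^ k * M := by rw [h.card]; simp
  have hd : q - 1 ∣ q ^ f - 1 := by
    simpa using Nat.sub_dvd_pow_sub_pow q 1 f
  have h2 : u ∣ M := by
    rw [hq1, hf1] at hd
    have h3 : u ∣ 2 ^ k * M := (Dvd.intro_left _ rfl).trans hd
    exact (Nat.Coprime.dvd_of_dvd_mul_left
      (Nat.Coprime.pow_right k (Nat.coprime_two_right.2 h.hu)) h3)
  obtain ⟨m, hm⟩ := h2
  refine ⟨m, by rw [hm, mul_comm], by rw [hm, Nat.mul_div_cancel_left _ hu0], ?_, hu0, ?_, ?_⟩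
  · have := h.hM
    rw [hm] at this
    exact (Nat.odd_mul.1 this).2
  · rw [hf1, hq1, hm]
    have : 2 ^ k = 2 ^ e * 2 ^ (k - e) := by rw [← pow_add, Nat.add_sub_cancel' h.hek]
    rw [this]
    ring
  · rw [hq1]; positivity

theorem prim_z {q e u k f M : ℕ} [Fact q.Prime] (h : Lev q e u k f M) {E : Type} [Field E]
    [Algebra (ZMod q) E] {z : E} (hz : z ^ (2 ^ (k - 1)) = -1) : IsPrimitiveRoot z (2 ^ k) := by
  have hk : k = (k - 1) + 1 := by have := h.hk; omega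
  have : CharP E q := charP_of_injective_algebraMap (algebraMap (ZMod q) E).injective q
  have h2 : (-1 : E) ≠ 1 := by
    intro h3
    have h4 : ((2 : ℕ) : E) = 0 := by
      push_cast
      linear_combination -h3
    rw [CharP.cast_eq_zero_iff E q] at h4
    have h5 := (Nat.prime_dvd_prime_iff_eq h.prime Nat.prime_two).1 h4
    have h6 := h.odd
    rw [h5] at h6
    exact absurd h6 (by decide)
  have h3 : orderOf z = 2 ^ k := by
    conv_rhs => rw [hk]
    apply orderOf_eq_prime_pow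
    · rw [hz]; exact h2
    · rw [pow_succ, pow_mul, hz]; ring
  rw [← h3]
  exact IsPrimitiveRoot.orderOf z

/-- the kernel of the index function -/
theorem idx_zero_iff {q e u k f M : ℕ} [Fact q.Prime] (h : Lev q e u k f M) {E : Type} [Field E]
    [Fintype E] [Algebra (ZMod q) E] (hE : Fintype.card E = q ^ f) {z : E}
    (hz : z ^ (2 ^ (k - 1)) = -1) {l : E → ZMod (2 ^ k)} (hl : IsIdx k z l) {x : E} (hx : x ≠ 0) :
    l x = 0 ↔ x ^ M = 1 := by
  constructor
  · intro h0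
    have hp := prim_z h hz
    have h1 : (x ^ M) ^ (2 ^ k) = 1 := by
      rw [← pow_mul, mul_comm, show 2 ^ k * M = Fintype.card E - 1 by rw [hE, h.card]; simp]
      exact FiniteField.pow_card_sub_one_eq_one x hx
    obtain ⟨i, hi, h2⟩ := hp.eq_pow_of_pow_eq_one h1
    have hz0 : z ≠ 0 := hp.ne_zero (by positivity)
    have h3 := idx_pow hl hz0 i
    rw [h2, idx_pow hl hx, h0, hl.gen, mul_zero, mul_one] at h3
    have h4 : 2 ^ k ∣ i := (ZMod.natCast_eq_zero_iff i (2 ^ k)).1 h3.symm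
    have h5 : i = 0 := Nat.eq_zero_of_dvd_of_lt h4 hi
    rw [← h2, h5, pow_zero]
  · intro h0
    have h1 := idx_pow hl hx M
    rw [h0, idx_one hl] at h1
    have h2 : IsUnit ((M : ℕ) : ZMod (2 ^ k)) := by
      rw [ZMod.isUnit_iff_coprime]
      exact Nat.Coprime.pow_right k (Nat.coprime_two_right.2 h.hM)
    exact (h2.mul_right_eq_zero.1 h1.symm)


theorem norm_eq {q e u k f M : ℕ} [Fact q.Prime] (h : Lev q e u k f M) {E : Type} [Field E]
    [Fintype E] [Algebra (ZMod q) E] (hE : Fintype.card E = q ^ f) (x : E) :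
    algebraMap (ZMod q) E (Algebra.norm (ZMod q) x) = x ^ (2 ^ (k - e) * (M / u)) := by
  obtain ⟨m, hm1, hm2, hm3, hu0, hq, hq1⟩ := div_facts h
  rw [FiniteField.algebraMap_norm_eq_pow, Nat.card_eq_fintype_card, hE, Nat.card_zmod, hq, hm2,
    Nat.mul_div_cancel_left _ hq1]

theorem chi_z {q e u k f M : ℕ} [Fact q.Prime] (h : Lev q e u k f M) {E : Type} [Field E]
    [Fintype E] [Algebra (ZMod q) E] {z : E} (hz : z ^ (2 ^ (k - 1)) = -1) {R : Type} [CommRing R]
    (χ : MulChar (ZMod q) R) (hχ : χ ^ u = 1) : χ (Algebra.norm (ZMod q) z) = 1 := by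
  have hp := prim_z h hz
  have hz0 : z ≠ 0 := hp.ne_zero (by positivity)
  have hN : IsUnit (Algebra.norm (ZMod q) z) := by
    rw [isUnit_iff_ne_zero]
    exact (Algebra.norm_ne_zero_iff).2 hz0
  have h1 : χ (Algebra.norm (ZMod q) z) ^ u = 1 := by
    rw [← MulChar.pow_apply' χ h.hu.pos.ne', hχ, MulChar.one_apply hN]
  have h2 : χ (Algebra.norm (ZMod q) z) ^ (2 ^ k) = 1 := by
    rw [← map_pow, ← map_pow, hp.pow_eq_one, map_one, map_one]
  have h3 := pow_gcd_eq_one.2 ⟨h1, h2⟩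
  have h4 : Nat.gcd u (2 ^ k) = 1 := Nat.Coprime.pow_right k (Nat.coprime_two_right.2 h.hu)
  rwa [h4, pow_one] at h3

/-- the `m`-th root -/
theorem root_ex {q e u k f M : ℕ} [Fact q.Prime] (h : Lev q e u k f M) {E : Type} [Field E]
    [Fintype E] [Algebra (ZMod q) E] (hE : Fintype.card E = q ^ f) (x : E) (hx : x ^ u = 1) :
    ∃ h0 : E, h0 ^ (M / u) = x ∧ h0 ^ M = 1 := by
  obtain ⟨m, hm1, hm2, hm3, hu0, hq, hq1⟩ := div_facts h
  obtain ⟨γ, hγ⟩ := exists_prim E M (2 ^ k) (by rw [hE, h.card]; simp [mul_comm])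
  have h1 : IsPrimitiveRoot (γ ^ m) u := hγ.pow h.hM.pos hm1
  have : NeZero u := ⟨hu0.ne'⟩
  obtain ⟨i, hi, h2⟩ := h1.eq_pow_of_pow_eq_one hx
  refine ⟨γ ^ i, ?_, ?_⟩
  · rw [hm2, ← h2, ← pow_mul, ← pow_mul, mul_comm]
  · rw [← pow_mul, mul_comm, pow_mul, hγ.pow_eq_one, one_pow]

theorem prime_field {q e u k f M : ℕ} [Fact q.Prime] (h : Lev q e u k f M) {E : Type} [Field E]
    [Algebra (ZMod q) E] (x : E) (hx : x ^ u = 1) :
    ∃ y : ZMod q, y ^ u = 1 ∧ algebraMap (ZMod q) E y = x := by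
  obtain ⟨ω, hω⟩ := exists_prim (ZMod q) u (2 ^ e) (by
    rw [ZMod.card]
    have := h.sub
    rw [this]
    simp [mul_comm])
  have h1 := hω.map_of_injective (algebraMap (ZMod q) E).injective
  have : NeZero u := ⟨h.hu.pos.ne'⟩
  obtain ⟨i, hi, h2⟩ := h1.eq_pow_of_pow_eq_one hx
  refine ⟨ω ^ i, ?_, ?_⟩
  · rw [← pow_mul, mul_comm, pow_mul, hω.pow_eq_one, one_pow]
  · rw [map_pow, h2]


open Classical in
/-- the sum over one fibre -/
theorem fiber {q e u k f M : ℕ} [Fact q.Prime] (h : Lev q e u k f M) {E : Type} [Field E]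
    [Fintype E] [Algebra (ZMod q) E] (hE : Fintype.card E = q ^ f) {z : E}
    (hz : z ^ (2 ^ (k - 1)) = -1) {l : E → ZMod (2 ^ k)} (hl : IsIdx k z l) {R : Type}
    [CommRing R] (χ : MulChar (ZMod q) R) (hχ : χ ^ u = 1) (A : ZMod (2 ^ k)) (hA : Odd A.val)
    (y : ZMod q) (hy : y ^ u = 1) :
    ∃ g : ℤ, ∑ s ∈ (univ.filter (fun s : E => s ≠ 0 ∧ l s = A)).filter
        (fun s => (s / z ^ A.val) ^ (M / u) = algebraMap (ZMod q) E y),
        nl χ E s * ((l (1 - s)).val : R) =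
      χ y ^ (2 ^ (k - e)) *
        ((l (1 - algebraMap (ZMod q) E y * z ^ (M / u * A.val))).val : R) +
        2 ^ k * (χ y ^ (2 ^ (k - e)) * (g : R)) := by
  obtain ⟨m, hm1, hm2, hm3, hu0, hq, hq1⟩ := div_facts h
  have hm0 : 0 < m := hm3.pos
  have hp := prim_z h hz
  have hz0 : z ≠ 0 := hp.ne_zero (by positivity)
  set x : E := algebraMap (ZMod q) E y with hx
  have hxu : x ^ u = 1 := by rw [hx, ← map_pow, hy, map_one]
  obtain ⟨h0, h01, h02⟩ := root_ex h hE x hxu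
  rw [hm2] at h01 ⊢
  have h00 : h0 ≠ 0 := by
    rintro rfl
    rw [zero_pow h.hM.pos.ne'] at h02
    exact zero_ne_one h02
  set a : ℕ := A.val with ha
  have hza : z ^ a ≠ 0 := pow_ne_zero _ hz0
  have hla : l (z ^ a) = A := by
    rw [idx_pow hl hz0, hl.gen, mul_one, ha, ZMod.natCast_zmod_val]
  have hζ : ∀ ζ ∈ Polynomial.nthRootsFinset m (1 : E), ζ ^ m = 1 ∧ ζ ≠ 0 := by
    intro ζ hζ
    have h1 := (Polynomial.mem_nthRootsFinset hm0 (1 : E)).1 hζ
    refine ⟨h1, ?_⟩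
    rintro rfl
    rw [zero_pow hm0.ne'] at h1
    exact zero_ne_one h1
  have hlz : ∀ ζ ∈ Polynomial.nthRootsFinset m (1 : E), l (z ^ a * (ζ * h0)) = A := by
    intro ζ hz'
    obtain ⟨h1, h2⟩ := hζ ζ hz'
    have h3 : ζ * h0 ≠ 0 := mul_ne_zero h2 h00
    rw [hl.mul _ _ hza h3, hla, (idx_zero_iff h hE hz hl h3).2 ?_, add_zero]
    rw [mul_pow, h02, mul_one, hm1, pow_mul, h1, one_pow]
  have hset : (univ.filter (fun s : E => s ≠ 0 ∧ l s = A)).filter
      (fun s => (s / z ^ a) ^ m = x) =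
      (Polynomial.nthRootsFinset m (1 : E)).image (fun ζ => z ^ a * (ζ * h0)) := by
    ext s
    rw [mem_filter, mem_filter, mem_image]
    constructor
    · rintro ⟨⟨-, h1, h2⟩, h3⟩
      refine ⟨s / z ^ a / h0, ?_, ?_⟩
      · rw [Polynomial.mem_nthRootsFinset hm0, div_pow, h3, h01]
        exact div_self (by rw [← h01]; exact pow_ne_zero _ h00)
      · field_simp
    · rintro ⟨ζ, h1, rfl⟩
      obtain ⟨h2, h3⟩ := hζ ζ h1
      refine ⟨⟨mem_univ _, mul_ne_zero hza (mul_ne_zero h3 h00), hlz ζ h1⟩, ?_⟩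
      rw [mul_div_cancel_left₀ _ hza, mul_pow, h2, one_mul, h01]
  have hinj : Set.InjOn (fun ζ => z ^ a * (ζ * h0))
      (Polynomial.nthRootsFinset m (1 : E) : Set E) := by
    intro ζ _ ζ' _ h1
    exact mul_right_cancel₀ h00 (mul_left_cancel₀ hza h1)
  rw [hset, sum_image hinj]
  have hchi : ∀ ζ ∈ Polynomial.nthRootsFinset m (1 : E),
      nl χ E (z ^ a * (ζ * h0)) = χ y ^ (2 ^ (k - e)) := by
    intro ζ h1
    obtain ⟨h2, h3⟩ := hζ ζ h1
    have h4 : Algebra.norm (ZMod q) (ζ * h0) = y ^ (2 ^ (k - e)) := by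
      apply (algebraMap (ZMod q) E).injective
      rw [norm_eq h hE, hm2, mul_comm (2 ^ (k - e)) m, pow_mul, mul_pow ζ h0 m, h2, one_mul, h01,
        map_pow]
    unfold nl
    rw [map_mul, map_mul, map_pow, map_pow, chi_z h hz χ hχ, one_pow, one_mul, h4, map_pow]
  have hne : ∀ ζ ∈ Polynomial.nthRootsFinset m (1 : E), 1 - ζ * (z ^ a * h0) ≠ 0 := by
    intro ζ h1 h2
    have h3 := hlz ζ h1
    have h4 : z ^ a * (ζ * h0) = 1 := by
      linear_combination -h2
    rw [h4, idx_one hl] at h3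
    rw [ha, ← h3, ZMod.val_zero] at hA
    exact Nat.not_odd_zero hA
  obtain ⟨ω, hω⟩ := exists_prim E m (2 ^ k * u) (by
    rw [hE, h.card, hm1, Nat.add_sub_cancel]; ring)
  have hprod := hω.pow_sub_pow_eq_prod_sub_mul (x := 1) (y := z ^ a * h0) hm0
  have hsum : l (1 - x * z ^ (m * a)) =
      ∑ ζ ∈ Polynomial.nthRootsFinset m (1 : E), l (1 - z ^ a * (ζ * h0)) := by
    rw [one_pow, mul_pow, h01] at hprod
    have h1 : (1 : E) - x * z ^ (m * a) = 1 - (z ^ a) ^ m * x := by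
      rw [← pow_mul, mul_comm m a]; ring
    rw [h1, hprod, idx_prod hl _ _ hne]
    refine sum_congr rfl fun ζ _ => ?_
    congr 2
    ring
  have hcast : ((l (1 - x * z ^ (m * a))).val : ZMod (2 ^ k)) =
      ((∑ ζ ∈ Polynomial.nthRootsFinset m (1 : E), (l (1 - z ^ a * (ζ * h0))).val : ℕ) :
        ZMod (2 ^ k)) := by
    rw [Nat.cast_sum, ZMod.natCast_zmod_val, hsum]
    exact sum_congr rfl fun ζ _ => (ZMod.natCast_zmod_val _).symm
  rw [ZMod.natCast_eq_natCast_iff, Nat.modEq_iff_dvd] at hcast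
  obtain ⟨g, hg⟩ := hcast
  refine ⟨g, ?_⟩
  rw [sum_congr rfl (fun ζ hζ' => by rw [hchi ζ hζ'])]
  rw [← mul_sum, ← Nat.cast_sum]
  have h5 := congrArg (Int.cast : ℤ → R) hg
  push_cast at h5
  push_cast
  linear_combination (χ y ^ (2 ^ (k - e))) * h5

open Classical in
theorem t : S_TRANS := by
  intro q e u k f M _ h E _ _ _ hE z hz l hl R _ χ hχ A hA
  have hp := prim_z h hz
  have hz0 : z ≠ 0 := hp.ne_zero (by positivity)
  obtain ⟨m, hm1, hm2, hm3, hu0, hq, hq1⟩ := div_facts h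
  choose g hg using fun y : {y : ZMod q // y ^ u = 1} => fiber h hE hz hl χ hχ A hA y.1 y.2
  have hT : ∀ s ∈ univ.filter (fun s : E => s ≠ 0 ∧ l s = A), (s / z ^ A.val) ^ (M / u) ∈
      (univ.filter (fun y : ZMod q => y ^ u = 1)).image (algebraMap (ZMod q) E) := by
    intro s hs
    rw [mem_filter] at hs
    obtain ⟨-, hs0, hs1⟩ := hs
    have hza : z ^ A.val ≠ 0 := pow_ne_zero _ hz0
    have h1 : s / z ^ A.val ≠ 0 := div_ne_zero hs0 hza
    have h2 : l (s / z ^ A.val) = 0 := by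
      have h3 := hl.mul (s / z ^ A.val) (z ^ A.val) h1 hza
      rw [div_mul_cancel₀ _ hza, hs1, idx_pow hl hz0, hl.gen, mul_one, ZMod.natCast_zmod_val] at h3
      exact right_eq_add.1 h3
    have h3 := (idx_zero_iff h hE hz hl h1).1 h2
    obtain ⟨y, hy1, hy2⟩ := prime_field h ((s / z ^ A.val) ^ (M / u)) (by
      rw [← pow_mul, hm2, ← hm1, h3])
    rw [mem_image]
    exact ⟨y, by rw [mem_filter]; exact ⟨mem_univ _, hy1⟩, hy2⟩
  refine ⟨∑ y : ZMod q, if hy : y ^ u = 1 then χ y ^ (2 ^ (k - e)) * (g ⟨y, hy⟩ : R) else 0, ?_⟩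
  rw [coeff_CC l _ A hA (idx_one hl), ← sum_fiberwise_of_maps_to hT,
    sum_image fun x _ y _ h1 => (algebraMap (ZMod q) E).injective h1, sum_filter, mul_sum,
    ← sum_add_distrib]
  refine sum_congr rfl fun y _ => ?_
  by_cases hy : y ^ u = 1
  · rw [if_pos hy, if_pos hy, dif_pos hy]
    exact hg ⟨y, hy⟩
  · rw [if_neg hy, if_neg hy, dif_neg hy]
    simp

end Pool.Agent.Y529.UE

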